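import Mathlib

set_option autoImplicit false
set_option maxHeartbeats 400000

open Polynomial

namespace Pool.Agent.Results.MP_2fa119_al.NotSection

section Defs
variable (k : Type) [Field k] (A : Type) [NonUnitalNonAssocRing A] [Module k A]
  [IsScalarTower k A A] [SMulCommClass k A A]

/-- An ideal: a subspace absorbing products on both sides. -/
def IsIdeal (I : Submodule k A) : Prop := ∀ x ∈ I, ∀ a : A, x * a ∈ I ∧ a * x ∈ I

/-- `A ≠ 0`, and for nonzero ideals `I`, `J` some product `x * y` with `x ∈ I`, `y ∈ J` is nonzero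
(so in particular `I · J ≠ 0`). -/
def IsPrimeAlg : Prop :=
  Nontrivial A ∧ ∀ I J : Submodule k A, IsIdeal k A I → IsIdeal k A J → I ≠ ⊥ → J ≠ ⊥ →
    ∃ x ∈ I, ∃ y ∈ J, x * y ≠ 0

/-- `f` in the free algebra on countably many variables vanishes under all substitutions. -/
def IsIdentity (f : FreeNonUnitalNonAssocAlgebra k ℕ) : Prop :=
  ∀ a : ℕ → A, FreeNonUnitalNonAssocAlgebra.lift k a f = 0

variable (A' : Type) [NonUnitalNonAssocRing A'] [Module k A']
  [IsScalarTower k A' A'] [SMulCommClass k A' A']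

/-- `A` satisfies every identity of `A'`. -/
def InVar : Prop := ∀ f, IsIdentity k A' f → IsIdentity k A f

/-- `A` is a homomorphic image of a subalgebra of `A'`, i.e. isomorphic to a section `R / I`. -/
def IsSection : Prop :=
  ∃ (R : NonUnitalSubalgebra k A') (φ : R →ₙₐ[k] A), Function.Surjective φ

end Defs

/-- basis `h, e, f` with `he = e = -eh`, `fh = f = -hf`, `ef = h = -fe`, `hh = t e`. -/
def T (R : Type) (_t : R) : Type := R × R × R

section Inst
variable {R : Type} [CommRing R] {t : R}

instance : AddCommGroup (T R t) := inferInstanceAs (AddCommGroup (R × R × R))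
instance (k : Type) [Field k] [Algebra k R] : Module k (T R t) :=
  inferInstanceAs (Module k (R × R × R))
instance : Mul (T R t) := ⟨fun x y => (x.2.1 * y.2.2 - x.2.2 * y.2.1,
  x.1 * y.2.1 - x.2.1 * y.1 + t * x.1 * y.1, x.2.2 * y.1 - x.1 * y.2.2)⟩

theorem ext' {x y : T R t} (h1 : x.1 = y.1) (h2 : x.2.1 = y.2.1) (h3 : x.2.2 = y.2.2) : x = y :=
  Prod.ext h1 (Prod.ext h2 h3)

@[simp] theorem mul1 (x y : T R t) : (x * y).1 = x.2.1 * y.2.2 - x.2.2 * y.2.1 := rfl
@[simp] theorem mul2 (x y : T R t) :
    (x * y).2.1 = x.1 * y.2.1 - x.2.1 * y.1 + t * x.1 * y.1 := rfl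
@[simp] theorem mul3 (x y : T R t) : (x * y).2.2 = x.2.2 * y.1 - x.1 * y.2.2 := rfl
@[simp] theorem add1 (x y : T R t) : (x + y).1 = x.1 + y.1 := rfl
@[simp] theorem add2 (x y : T R t) : (x + y).2.1 = x.2.1 + y.2.1 := rfl
@[simp] theorem add3 (x y : T R t) : (x + y).2.2 = x.2.2 + y.2.2 := rfl
@[simp] theorem zero1 : (0 : T R t).1 = 0 := rfl
@[simp] theorem zero2 : (0 : T R t).2.1 = 0 := rfl
@[simp] theorem zero3 : (0 : T R t).2.2 = 0 := rfl
@[simp] theorem smul1 {k : Type} [Field k] [Algebra k R] (c : k) (x : T R t) :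
    (c • x).1 = c • x.1 := rfl
@[simp] theorem smul2 {k : Type} [Field k] [Algebra k R] (c : k) (x : T R t) :
    (c • x).2.1 = c • x.2.1 := rfl
@[simp] theorem smul3 {k : Type} [Field k] [Algebra k R] (c : k) (x : T R t) :
    (c • x).2.2 = c • x.2.2 := rfl

instance : NonUnitalNonAssocRing (T R t) :=
  { (inferInstance : AddCommGroup (T R t)), (inferInstance : Mul (T R t)) with
    left_distrib := fun a b c => ext' (by simp; ring) (by simp; ring) (by simp; ring)
    right_distrib := fun a b c => ext' (by simp; ring) (by simp; ring) (by simp; ring)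
    zero_mul := fun a => ext' (by simp) (by simp) (by simp)
    mul_zero := fun a => ext' (by simp) (by simp) (by simp) }

instance (k : Type) [Field k] [Algebra k R] : IsScalarTower k (T R t) (T R t) :=
  ⟨fun c x y => ext' (by simp [Algebra.smul_def]; ring) (by simp [Algebra.smul_def]; ring)
    (by simp [Algebra.smul_def]; ring)⟩
instance (k : Type) [Field k] [Algebra k R] : SMulCommClass k (T R t) (T R t) :=
  ⟨fun c x y => ext' (by simp [Algebra.smul_def]; ring) (by simp [Algebra.smul_def]; ring)
    (by simp [Algebra.smul_def]; ring)⟩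
end Inst

variable {k : Type} [Field k]

instance (t : k) : FiniteDimensional k (T k t) := inferInstanceAs (FiniteDimensional k (k × k × k))

def mk (t : k) (a b c : k) : T k t := (a, b, c)
@[simp] theorem mk1 (t a b c : k) : (mk t a b c).1 = a := rfl
@[simp] theorem mk2 (t a b c : k) : (mk t a b c).2.1 = b := rfl
@[simp] theorem mk3 (t a b c : k) : (mk t a b c).2.2 = c := rfl

def psi (c : k) (hc : c ≠ 0) : T k 1 →ₙₐ[k] T k c where
  toFun x := mk c x.1 (c * x.2.1) (c⁻¹ * x.2.2)
  map_smul' a x := ext' (by simp) (by simp; ring) (by simp; ring)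
  map_zero' := ext' (by simp) (by simp) (by simp)
  map_add' x y := ext' (by simp) (by simp; ring) (by simp; ring)
  map_mul' x y := ext' (by simp; field_simp) (by simp; ring) (by simp; ring)

noncomputable def ev (c : k) : T k[X] X →ₙₐ[k] T k c where
  toFun x := mk c (x.1.eval c) (x.2.1.eval c) (x.2.2.eval c)
  map_smul' a x := ext' (by simp) (by simp) (by simp)
  map_zero' := ext' (by simp) (by simp) (by simp)
  map_add' x y := ext' (by simp) (by simp) (by simp)
  map_mul' x y := ext' (by simp) (by simp) (by simp)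

theorem nat {A B : Type} [NonUnitalNonAssocRing A] [Module k A] [IsScalarTower k A A]
    [SMulCommClass k A A] [NonUnitalNonAssocRing B] [Module k B] [IsScalarTower k B B]
    [SMulCommClass k B B] (φ : A →ₙₐ[k] B) (a : ℕ → A) (f : FreeNonUnitalNonAssocAlgebra k ℕ) :
    φ (FreeNonUnitalNonAssocAlgebra.lift k a f) =
      FreeNonUnitalNonAssocAlgebra.lift k (fun n => φ (a n)) f := by
  have : φ.comp (FreeNonUnitalNonAssocAlgebra.lift k a) =
      FreeNonUnitalNonAssocAlgebra.lift k (fun n => φ (a n)) := by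
    apply FreeNonUnitalNonAssocAlgebra.hom_ext
    intro x; simp
  rw [← this]; rfl

theorem idc (c : k) (hc : c ≠ 0) (f : FreeNonUnitalNonAssocAlgebra k ℕ)
    (hf : IsIdentity k (T k 1) f) : IsIdentity k (T k c) f := by
  intro a
  have := nat (psi c hc) (fun n => mk 1 (a n).1 (c⁻¹ * (a n).2.1) (c * (a n).2.2)) f
  rw [hf, map_zero] at this
  rw [this]
  congr 2
  funext n
  exact ext' rfl (by show _ = c * (c⁻¹ * _); field_simp) (by show _ = c⁻¹ * (c * _); field_simp)

theorem pz [Infinite k] (p : k[X]) (h : ∀ c : k, c ≠ 0 → p.eval c = 0) : p.eval 0 = 0 := by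
  have : p = 0 := by
    apply Polynomial.eq_zero_of_infinite_isRoot
    refine ((Set.finite_singleton (0 : k)).infinite_compl).mono ?_
    intro c hc
    exact h c hc
  rw [this, eval_zero]

theorem invar [Infinite k] : InVar k (T k 0) (T k 1) := by
  intro f hf a
  let b : ℕ → T k[X] X := fun n => (C (a n).1, C (a n).2.1, C (a n).2.2)
  have h0 := nat (ev 0) b f
  have e : (fun n => ev 0 (b n)) = a := by
    funext n
    exact ext' (by show eval 0 (C _) = _; simp) (by show eval 0 (C _) = _; simp)
      (by show eval 0 (C _) = _; simp)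
  rw [e] at h0
  rw [← h0]
  have hc : ∀ c : k, c ≠ 0 → ev c (FreeNonUnitalNonAssocAlgebra.lift k b f) = 0 := by
    intro c hc
    rw [nat]; exact idc c hc f hf _
  exact ext' (pz _ fun c h => congrArg (fun z : T k c => z.1) (hc c h))
    (pz _ fun c h => congrArg (fun z : T k c => z.2.1) (hc c h))
    (pz _ fun c h => congrArg (fun z : T k c => z.2.2) (hc c h))

theorem has_e_f (I : Submodule k (T k 0)) (hI : IsIdeal k _ I) (h0 : I ≠ ⊥) :
    mk 0 0 1 0 ∈ I ∧ mk 0 0 0 1 ∈ I := by
  obtain ⟨x, hx, hx0⟩ := (Submodule.ne_bot_iff I).1 h0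
  have key : ∀ c : k, c ≠ 0 → mk 0 c 0 0 ∈ I → mk 0 0 1 0 ∈ I ∧ mk 0 0 0 1 ∈ I := by
    intro c hc h
    constructor
    · have := (hI _ h (mk 0 0 c⁻¹ 0)).1
      convert this using 1
      exact ext' (by simp) (by simp [hc]) (by simp)
    · have := (hI _ h (mk 0 0 0 c⁻¹)).2
      convert this using 1
      exact ext' (by simp) (by simp) (by simp [hc])
  by_cases h1 : x.1 = 0
  · by_cases h2 : x.2.1 = 0
    · have h3 : x.2.2 ≠ 0 := fun h3 => hx0 (ext' h1 h2 h3)
      apply key _ h3
      have := (hI _ hx (mk 0 0 1 0)).2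
      convert this using 1
      exact ext' (by simp) (by simp [h1]) (by simp)
    · apply key _ h2
      have := (hI _ hx (mk 0 0 0 1)).1
      convert this using 1
      exact ext' (by simp) (by simp) (by simp [h1])
  · apply key _ h1
    have := (hI _ (hI _ hx (mk 0 0 0 1)).2 (mk 0 0 1 0)).2
    have h5 := (hI _ (hI _ this (mk 0 0 1 0)).1 (mk 0 0 0 1)).1
    convert h5 using 1
    exact ext' (by simp) (by simp) (by simp)

theorem result (k : Type) [Field k] [IsAlgClosed k] :
    ∃ (A A' : Type) (_ : NonUnitalNonAssocRing A) (_ : Module k A) (_ : IsScalarTower k A A)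
      (_ : SMulCommClass k A A) (_ : NonUnitalNonAssocRing A') (_ : Module k A')
      (_ : IsScalarTower k A' A') (_ : SMulCommClass k A' A'),
      FiniteDimensional k A ∧ FiniteDimensional k A' ∧ IsPrimeAlg k A ∧ InVar k A A' ∧
        ¬ IsSection k A A' := by
  refine ⟨T k 0, T k 1, inferInstance, inferInstance, inferInstance, inferInstance, inferInstance,
    inferInstance, inferInstance, inferInstance, inferInstance, inferInstance, ⟨?_, ?_⟩, invar, ?_⟩
  · exact inferInstanceAs (Nontrivial (k × k × k))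
  · intro I J hI hJ hI0 hJ0
    refine ⟨_, (has_e_f I hI hI0).1, _, (has_e_f J hJ hJ0).2, fun h => ?_⟩
    have := congrArg (fun z : T k 0 => z.1) h
    simp at this
  · rintro ⟨R, φ, hφ⟩
    let ψ : R.toSubmodule →ₗ[k] T k 0 :=
      { toFun := fun x => φ x, map_add' := fun x y => map_add φ x y,
        map_smul' := fun c x => map_smul φ c x }
    have hψ : Function.Surjective ψ := hφ
    have d0 : Module.finrank k (T k 0) = Module.finrank k (T k 1) := rfl
    have h1 := LinearMap.finrank_range_add_finrank_ker ψ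
    rw [LinearMap.range_eq_top.2 hψ, finrank_top] at h1
    have h2 := Submodule.finrank_le R.toSubmodule
    have h3 : R.toSubmodule = ⊤ := Submodule.eq_top_of_finrank_eq (by omega)
    have h4 : LinearMap.ker ψ = ⊥ := Submodule.finrank_eq_zero.1 (by omega)
    have hinj : Function.Injective φ := LinearMap.ker_eq_bot.1 h4
    have hm : mk (1 : k) 1 0 0 ∈ R := by
      show mk (1 : k) 1 0 0 ∈ R.toSubmodule
      rw [h3]; trivial
    have h5 : φ (⟨_, hm⟩ * ⟨_, hm⟩) = φ 0 := by
      rw [map_mul, map_zero]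
      exact ext' (by simp; ring) (by simp; ring) (by simp; ring)
    have h6 := congrArg (fun z : R => (z : T k 1).2.1) (hinj h5)
    simp at h6

end Pool.Agent.Results.MP_2fa119_al.NotSection
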